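import Pool.Agent.Lib.MP_f7b195_co.Square

/-!
# For every large order there is a Latin square which does not split into duplexes

For every `n ≥ 2 ^ 152` there is a Latin square of order `n` in which every family of pairwise disjoint
duplexes has fewer than `⌊n / 2⌋` members. The Latin square is the Cayley table of the integers modulo
`n`, changed along a dissection of a triangle of side `n` which comes from repeated halving: the
defects `δ` of the cells have sum `n`, they are at most `6`, the cells with positive defect have a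
fractional cover by rows, columns and symbols of weight about `n ^ 0.92`, and the sum of `δ` over a
duplex is divisible by `n`, hence at most `0`. So the cells outside a family of disjoint duplexes
contain defects of sum at least `n`.
-/

set_option autoImplicit false

open Finset

namespace Pool.Agent.Results.MP_f7b195_co.AllLargeOrders

open Pool.Agent.Lib.MP_f7b195_co

/-- `L` is a Latin square of order `n`: no symbol is repeated in a row or in a column. -/
def IsLatin {n : ℕ} (L : Fin n → Fin n → Fin n) : Prop :=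
  (∀ i, Function.Injective (L i)) ∧ ∀ j, Function.Injective (fun i => L i j)

/-- A duplex: exactly two cells in every row, in every column and for every symbol. -/
def IsDuplex {n : ℕ} (L : Fin n → Fin n → Fin n) (D : Finset (Fin n × Fin n)) : Prop :=
  (∀ r : Fin n, (D.filter (fun c => c.1 = r)).card = 2) ∧
  (∀ s : Fin n, (D.filter (fun c => c.2 = s)).card = 2) ∧
  ∀ v : Fin n, (D.filter (fun c => L c.1 c.2 = v)).card = 2

theorem dep_spec (n : ℕ) (hn : 3 ≤ n) : 3 * 2 ^ dep n ≤ n ∧ n < 6 * 2 ^ dep n := by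
  induction n using Nat.strong_induction_on with
  | _ n ih =>
    by_cases h : n ≤ 5
    · rw [dep, if_pos h]
      omega
    · obtain ⟨h1, h2⟩ := ih (n / 2) (by omega) (by omega)
      rw [dep, if_neg h, pow_succ]
      omega

theorem num (t : ℕ) (ht : 50 ≤ t) : 27 ^ (t + 1) * (3 * t + 8) < 32 ^ t := by
  induction t, ht using Nat.le_induction with
  | base => norm_num
  | succ t ht ih =>
    have h1 : 27 * (3 * (t + 1) + 8) ≤ 32 * (3 * t + 8) := by omega
    calc 27 ^ (t + 1 + 1) * (3 * (t + 1) + 8) = 27 ^ (t + 1) * (27 * (3 * (t + 1) + 8)) := by ring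
      _ ≤ 27 ^ (t + 1) * (32 * (3 * t + 8)) := Nat.mul_le_mul_left _ h1
      _ = 32 * (27 ^ (t + 1) * (3 * t + 8)) := by ring
      _ < 32 * 32 ^ t := by omega
      _ = 32 ^ (t + 1) := by ring

/-- the depth in terms of `t` -/
theorem dep_cases (n t : ℕ) (hn : 3 ≤ n) (h1 : 3 * 8 ^ t ≤ n) (h2 : n < 3 * 8 ^ (t + 1)) :
    dep n = 3 * t ∨ dep n = 3 * t + 1 ∨ dep n = 3 * t + 2 := by
  obtain ⟨h3, h4⟩ := dep_spec n hn
  have e1 : (8 : ℕ) ^ t = 2 ^ (3 * t) := by rw [pow_mul]; norm_num
  have e2 : (8 : ℕ) ^ (t + 1) = 2 ^ (3 * t + 3) := by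
    rw [show 3 * t + 3 = 3 * (t + 1) by ring, pow_mul]
    norm_num
  rw [e1] at h1
  rw [e2] at h2
  have h5 : 3 * t < dep n + 1 := by
    have : (2 : ℕ) ^ (3 * t) < 2 ^ (dep n + 1) := by
      rw [pow_succ]
      omega
    exact (Nat.pow_lt_pow_iff_right (by norm_num)).1 this
  have h6 : dep n < 3 * t + 3 := by
    have : (2 : ℕ) ^ dep n < 2 ^ (3 * t + 3) := by omega
    exact (Nat.pow_lt_pow_iff_right (by norm_num)).1 this
  omega

/-- the main numerical inequality -/
theorem main_num (n t k : ℕ) (hn : 3 ≤ n) (h1 : 3 * 8 ^ t ≤ n) (h2 : n < 3 * 8 ^ (t + 1))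
    (h : n * 4 ^ (dep n / 3) ≤ 18 * k * ((dep n + 6) * 3 ^ dep n)) :
    2 * 32 ^ t ≤ 27 ^ (t + 1) * (3 * t + 8) * k := by
  obtain ⟨h3, -⟩ := dep_spec n hn
  have e27 : ∀ r, (3 : ℕ) ^ (3 * t + r) = 27 ^ t * 3 ^ r := fun r => by
    rw [pow_add, pow_mul]
    norm_num
  have e8 : ∀ r, (2 : ℕ) ^ (3 * t + r) * 4 ^ t = 32 ^ t * 2 ^ r := fun r => by
    rw [pow_add, pow_mul, show (32 : ℕ) = 2 ^ 3 * 4 by norm_num, mul_pow]
    ring
  rcases dep_cases n t hn h1 h2 with hd | hd | hd
  · have e1 : dep n / 3 = t := by omega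
    rw [e1, hd] at h
    have e3 := e27 0
    have e4 := e8 0
    rw [add_zero] at e3 e4
    rw [e3] at h
    have h4 : 3 * (32 ^ t * 2 ^ 0) ≤ n * 4 ^ t := by
      rw [← e4, ← mul_assoc]
      exact Nat.mul_le_mul_right _ (by rw [← hd]; exact h3)
    have h5 : 3 * 32 ^ t ≤ 18 * k * ((3 * t + 6) * 27 ^ t) := by
      simp only [pow_zero, mul_one] at h4 h
      exact le_trans h4 h
    rw [pow_succ]
    nlinarith [Nat.zero_le (k * 27 ^ t * t), Nat.zero_le (k * 27 ^ t)]
  · have e1 : dep n / 3 = t := by omega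
    rw [e1, hd] at h
    rw [e27 1] at h
    have h4 : 3 * (32 ^ t * 2 ^ 1) ≤ n * 4 ^ t := by
      rw [← e8 1, ← mul_assoc]
      exact Nat.mul_le_mul_right _ (by rw [← hd]; exact h3)
    have h5 := le_trans h4 h
    rw [pow_succ]
    nlinarith [Nat.zero_le (k * 27 ^ t * t), Nat.zero_le (k * 27 ^ t)]
  · have e1 : dep n / 3 = t := by omega
    rw [e1, hd] at h
    rw [e27 2] at h
    have h4 : 3 * (32 ^ t * 2 ^ 2) ≤ n * 4 ^ t := by
      rw [← e8 2, ← mul_assoc]
      exact Nat.mul_le_mul_right _ (by rw [← hd]; exact h3)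
    have h5 := le_trans h4 h
    rw [pow_succ]
    nlinarith [Nat.zero_le (k * 27 ^ t * t), Nat.zero_le (k * 27 ^ t)]

/-- the sum of the defects over a duplex is at most `0` -/
theorem duplex_nonpos (n t : ℕ) (hn : 3 ≤ n) (h1 : 3 * 8 ^ t ≤ n) (h2 : n < 3 * 8 ^ (t + 1))
    (ht : 50 ≤ t) (D : Finset (Fin n × Fin n)) (hD : IsPlex (Lsq n) 2 D) :
    ∑ c ∈ D, dZ c ≤ 0 := by
  by_contra hcon
  obtain ⟨q, hq⟩ := duplex_dvd D hD
  have hn0 : (0 : ℤ) < n := by omega
  have hq1 : 1 ≤ q := by
    by_contra h3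
    have : (n : ℤ) * q ≤ n * 0 := mul_le_mul_of_nonneg_left (by omega) hn0.le
    omega
  have h4 : (n : ℤ) ≤ ∑ c ∈ D, dZ c := by
    rw [hq]
    have : (n : ℤ) * 1 ≤ n * q := mul_le_mul_of_nonneg_left hq1 hn0.le
    omega
  have h5 := plex_le hn D hD
  have h6 : (n : ℤ) * (4 ^ (dep n / 3) : ℕ) ≤ (∑ c ∈ D, dZ c) * (4 ^ (dep n / 3) : ℕ) :=
    mul_le_mul_of_nonneg_right h4 (by positivity)
  have h7 : n * 4 ^ (dep n / 3) ≤ 18 * 2 * ((dep n + 6) * 3 ^ dep n) := by
    exact_mod_cast le_trans h6 h5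
  have h8 := main_num n t 2 hn h1 h2 h7
  have h9 := num t ht
  omega

/-- Main theorem: for every `n ≥ 2 ^ 152` there is a Latin square `L` of order `n` such that every family
of `m` pairwise disjoint duplexes of `L` has `m < ⌊n / 2⌋`; more precisely, if
`3 * 8 ^ t ≤ n < 3 * 8 ^ (t + 1)`, then `n - 2 * m ≥ (2 / 27) * (32 / 27) ^ t / (3 * t + 8)`. -/
theorem result (n : ℕ) (hn : 2 ^ 152 ≤ n) :
    ∃ L : Fin n → Fin n → Fin n, IsLatin L ∧
      ∀ (m : ℕ) (D : Fin m → Finset (Fin n × Fin n)), (∀ k, IsDuplex L (D k)) →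
        (∀ a b, a ≠ b → Disjoint (D a) (D b)) →
        m < n / 2 ∧
        ∀ t, 3 * 8 ^ t ≤ n → n < 3 * 8 ^ (t + 1) →
          2 * 32 ^ t ≤ 27 ^ (t + 1) * (3 * t + 8) * (n - 2 * m) := by
  have hn3 : 3 ≤ n := le_trans (by norm_num) hn
  refine ⟨Lsq n, ⟨Lsq_row n hn3, Lsq_col n hn3⟩, ?_⟩
  intro m D hD hdis
  -- the uncovered cells
  set U : Finset (Fin n × Fin n) := univ.biUnion D with hU
  have hcount : ∀ (π : Fin n × Fin n → Fin n) (r : Fin n),
      (∀ k, ((D k).filter (fun c => π c = r)).card = 2) →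
      (U.filter (fun c => π c = r)).card = 2 * m := by
    intro π r hk
    rw [hU, Finset.filter_biUnion, Finset.card_biUnion]
    · rw [Finset.sum_congr rfl (fun k _ => hk k), Finset.sum_const, Finset.card_univ,
        Fintype.card_fin, smul_eq_mul, mul_comm]
    · intro a _ b _ hab
      exact Finset.disjoint_filter_filter (hdis a b hab)
  have htot : ∀ (π : Fin n × Fin n → Fin n) (r : Fin n),
      ((univ : Finset (Fin n × Fin n)).filter (fun c => π c = r)).card = n →
      (∀ k, ((D k).filter (fun c => π c = r)).card = 2) →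
      ((univ \ U).filter (fun c => π c = r)).card = n - 2 * m := by
    intro π r h1 h2
    have h3 := hcount π r h2
    have h4 : (univ \ U).filter (fun c => π c = r) =
        (univ : Finset (Fin n × Fin n)).filter (fun c => π c = r) \ U.filter (fun c => π c = r) := by
      ext c
      simp only [mem_filter, mem_sdiff, mem_univ, true_and]
      tauto
    rw [h4, Finset.card_sdiff_of_subset (Finset.filter_subset_filter _ (Finset.subset_univ U)), h1, h3]
  have hrow : ∀ r : Fin n,
      ((univ : Finset (Fin n × Fin n)).filter (fun c => c.1 = r)).card = n := by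
    intro r
    have : (univ : Finset (Fin n × Fin n)).filter (fun c => c.1 = r) =
        univ.image (fun j : Fin n => (r, j)) := by
      ext c
      simp only [mem_filter, mem_univ, true_and, mem_image]
      constructor
      · rintro rfl
        exact ⟨c.2, rfl⟩
      · rintro ⟨j, rfl⟩
        rfl
    rw [this, Finset.card_image_of_injective _ (fun a b h => (Prod.mk.inj h).2), Finset.card_univ,
      Fintype.card_fin]
  have hcol : ∀ r : Fin n,
      ((univ : Finset (Fin n × Fin n)).filter (fun c => c.2 = r)).card = n := by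
    intro r
    have : (univ : Finset (Fin n × Fin n)).filter (fun c => c.2 = r) =
        univ.image (fun j : Fin n => (j, r)) := by
      ext c
      simp only [mem_filter, mem_univ, true_and, mem_image]
      constructor
      · rintro rfl
        exact ⟨c.1, rfl⟩
      · rintro ⟨j, rfl⟩
        rfl
    rw [this, Finset.card_image_of_injective _ (fun a b h => (Prod.mk.inj h).1), Finset.card_univ,
      Fintype.card_fin]
  have hsym : ∀ v : Fin n,
      ((univ : Finset (Fin n × Fin n)).filter (fun c => Lsq n c.1 c.2 = v)).card = n := by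
    intro v
    have hsurj : ∀ i : Fin n, ∃ j, Lsq n i j = v := fun i =>
      (Finite.surjective_of_injective (Lsq_row n hn3 i)) v
    choose g hg using hsurj
    have : (univ : Finset (Fin n × Fin n)).filter (fun c => Lsq n c.1 c.2 = v) =
        univ.image (fun i : Fin n => (i, g i)) := by
      ext c
      simp only [mem_filter, mem_univ, true_and, mem_image]
      constructor
      · intro h
        refine ⟨c.1, ?_⟩
        have : g c.1 = c.2 := Lsq_row n hn3 c.1 (by rw [hg, h])
        rw [this]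
      · rintro ⟨i, rfl⟩
        exact hg i
    rw [this, Finset.card_image_of_injective _ (fun a b h => (Prod.mk.inj h).1), Finset.card_univ,
      Fintype.card_fin]
  have hR : IsPlex (Lsq n) (n - 2 * m) (univ \ U) :=
    ⟨fun r => htot (fun c => c.1) r (hrow r) (fun k => (hD k).1 r),
      fun r => htot (fun c => c.2) r (hcol r) (fun k => (hD k).2.1 r),
      fun v => htot (fun c => Lsq n c.1 c.2) v (hsym v) (fun k => (hD k).2.2 v)⟩
  have hall : ∑ c : Fin n × Fin n, dZ c = n := by
    have h := sum_all (pat_del n hn3) (by omega)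
    rw [Fintype.sum_prod_type]
    rw [Finset.sum_range] at h
    rw [← h]
    refine Finset.sum_congr rfl (fun i _ => ?_)
    rw [Finset.sum_range]
    rfl
  have hsplit : ∑ c ∈ univ \ U, dZ c = n - ∑ k, ∑ c ∈ D k, dZ c := by
    have h1 : ∑ c ∈ U, dZ c = ∑ k, ∑ c ∈ D k, dZ c := by
      rw [hU, Finset.sum_biUnion]
      intro a _ b _ hab
      exact hdis a b hab
    have h2 := Finset.sum_sdiff (Finset.subset_univ U) (f := fun c : Fin n × Fin n => dZ c)
    rw [hall, h1] at h2
    linarith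
  have key : ∀ t, 3 * 8 ^ t ≤ n → n < 3 * 8 ^ (t + 1) →
      2 * 32 ^ t ≤ 27 ^ (t + 1) * (3 * t + 8) * (n - 2 * m) ∧ 50 ≤ t := by
    intro t h1 h2
    have ht : 50 ≤ t := by
      by_contra h3
      have h4 : 3 * 8 ^ (t + 1) ≤ 3 * 8 ^ 50 :=
        Nat.mul_le_mul_left _ (Nat.pow_le_pow_right (by norm_num) (by omega))
      have h5 : (3 : ℕ) * 8 ^ 50 < 2 ^ 152 := by norm_num
      omega
    refine ⟨?_, ht⟩
    have h3 : (n : ℤ) ≤ ∑ c ∈ univ \ U, dZ c := by
      rw [hsplit]
      have : ∑ k, ∑ c ∈ D k, dZ c ≤ 0 :=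
        Finset.sum_nonpos (fun k _ => duplex_nonpos n t hn3 h1 h2 ht (D k) (hD k))
      omega
    have h4 := plex_le hn3 _ hR
    have h5 : (n : ℤ) * (4 ^ (dep n / 3) : ℕ) ≤
        (∑ c ∈ univ \ U, dZ c) * (4 ^ (dep n / 3) : ℕ) :=
      mul_le_mul_of_nonneg_right h3 (by positivity)
    have h6 : n * 4 ^ (dep n / 3) ≤ 18 * (n - 2 * m) * ((dep n + 6) * 3 ^ dep n) := by
      exact_mod_cast le_trans h5 h4
    exact main_num n t (n - 2 * m) hn3 h1 h2 h6
  refine ⟨?_, fun t h1 h2 => (key t h1 h2).1⟩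
  -- the exponent
  obtain ⟨t, h1, h2⟩ : ∃ t, 3 * 8 ^ t ≤ n ∧ n < 3 * 8 ^ (t + 1) := by
    refine ⟨Nat.log 8 (n / 3), ?_, ?_⟩
    · have := Nat.pow_log_le_self 8 (x := n / 3) (by omega)
      omega
    · have := Nat.lt_pow_succ_log_self (b := 8) (by norm_num) (n / 3)
      omega
  obtain ⟨h3, h4⟩ := key t h1 h2
  have h5 := num t h4
  have h6 : 3 ≤ n - 2 * m := by
    by_contra h7
    have h8 : 27 ^ (t + 1) * (3 * t + 8) * (n - 2 * m) ≤ 27 ^ (t + 1) * (3 * t + 8) * 2 :=
      Nat.mul_le_mul_left _ (by omega)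
    omega
  omega

end Pool.Agent.Results.MP_f7b195_co.AllLargeOrders
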